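import Mathlib
import Pool.Agent.Work.MP_b0497c_an.Damp.Core
import Pool.Agent.Work.MP_b0497c_an.Damp.Parseval
import Pool.Agent.Work.MP_b0497c_an.Damp.Basic
import Pool.Agent.Work.MP_b0497c_an.Damp.Conv
import Pool.Agent.Work.MP_b0497c_an.Damp.Datum
import Pool.Agent.Work.MP_b0497c_an.Damp.Time
import Pool.Agent.Work.MP_b0497c_an.Damp.Energy
import Pool.Agent.Work.MP_b0497c_an.Damp.Unique
import Pool.Agent.Work.MP_b0497c_an.Damp.CubeInv
import Pool.Agent.Work.MP_b0497c_an.Damp.Symm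
import Pool.Agent.Work.MP_b0497c_an.Damp.Ode
import Pool.Agent.Work.MP_b0497c_an.Damp.Closed
import Pool.Agent.Work.MP_b0497c_an.Damp.Far
import Pool.Agent.Work.MP_b0497c_an.Damp.Chain
import Pool.Agent.Work.MP_b0497c_an.Damp.Amp
import Pool.Agent.Work.MP_b0497c_an.Damp.Rem
import Pool.Agent.Work.MP_b0497c_an.Damp.Weights
import Pool.Agent.Work.MP_b0497c_an.Damp.Ric
import Pool.Agent.Work.MP_b0497c_an.Damp.Build
import Pool.Agent.Work.MP_b0497c_an.Damp.Max
import Pool.Agent.Work.MP_b0497c_an.Damp.Poly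
import Pool.Agent.Work.MP_b0497c_an.Damp.Blow
import Pool.Agent.Work.MP_b0497c_an.Damp.Coeff

set_option autoImplicit false

/-!
Finite time blow-up for the Euler equations on the torus with a dissipation which degenerates
only on 72 lines in frequency space (or only on a chain of `O(log N)` frequencies up to `N`).
-/

namespace Pool.Agent.Results.MP_b0497c_an.DegenerateDissipation

open Set MeasureTheory RealInnerProductSpace Pool.Agent.Work.MP_b0497c_an
open Pool.Agent.Work.MP_b0497c_an.Dec (cube phase Sgn act vec)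
open Pool.Agent.Work.MP_b0497c_an.Damp (actR Lam X)

/-- The divergence of `f` at `x`. -/
noncomputable def divg (f : EuclideanSpace ℝ (Fin 3) → EuclideanSpace ℝ (Fin 3))
    (x : EuclideanSpace ℝ (Fin 3)) : ℝ :=
  LinearMap.trace ℝ (EuclideanSpace ℝ (Fin 3)) (fderiv ℝ f x)

/-- `∂ₜ u + (u · ∇) u` at `(t, x)`; the time derivative is one-sided at `t = 0`. -/
noncomputable def accel (T : ℝ) (u : ℝ → EuclideanSpace ℝ (Fin 3) → EuclideanSpace ℝ (Fin 3))
    (t : ℝ) (x : EuclideanSpace ℝ (Fin 3)) : EuclideanSpace ℝ (Fin 3) :=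
  derivWithin (fun s => u s x) (Ico 0 T) t + fderiv ℝ (u t) x (u t x)

/-- The integral of `cos (k · x) (f x · c)` over the torus. -/
noncomputable def cosInt (k : Fin 3 → ℤ) (c : EuclideanSpace ℝ (Fin 3))
    (f : EuclideanSpace ℝ (Fin 3) → EuclideanSpace ℝ (Fin 3)) : ℝ :=
  ∫ x in cube, Real.cos (phase k x) * ⟪f x, c⟫

/-- The integral of `sin (k · x) (f x · c)` over the torus. -/
noncomputable def sinInt (k : Fin 3 → ℤ) (c : EuclideanSpace ℝ (Fin 3))
    (f : EuclideanSpace ℝ (Fin 3) → EuclideanSpace ℝ (Fin 3)) : ℝ :=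
  ∫ x in cube, Real.sin (phase k x) * ⟪f x, c⟫

/-- `u` is a classical solution on `[0, T)` of the damped Euler equations
`∂ₜ u + (u · ∇) u + ∇ p + D u = 0`, `div u = 0`, where `D` multiplies the Fourier mode `k` by
`D k`: `u` is `C¹` in `(t, x)`, `u t` is periodic and divergence free, and the equation, tested
with the modes `cos (k · x) c` and `sin (k · x) c`, holds for all `k` and all `c` orthogonal to
`k` (that is, after the Leray projection). If `D = 0` this is the Euler equation. -/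
structure IsDampedSolution (D : (Fin 3 → ℤ) → ℝ) (T : ℝ)
    (u : ℝ → EuclideanSpace ℝ (Fin 3) → EuclideanSpace ℝ (Fin 3)) : Prop where
  contDiff_u : ContDiffOn ℝ 1 (fun z : ℝ × EuclideanSpace ℝ (Fin 3) => u z.1 z.2)
    (Ico 0 T ×ˢ univ)
  periodic : ∀ t ∈ Ico 0 T, Periodic3 (u t)
  div_free : ∀ t ∈ Ico 0 T, ∀ x, divg (u t) x = 0
  cos_eq : ∀ t ∈ Ico 0 T, ∀ (k : Fin 3 → ℤ) (c : EuclideanSpace ℝ (Fin 3)), ⟪vec k, c⟫ = 0 →
    cosInt k c (accel T u t) + D k * cosInt k c (u t) = 0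
  sin_eq : ∀ t ∈ Ico 0 T, ∀ (k : Fin 3 → ℤ) (c : EuclideanSpace ℝ (Fin 3)), ⟪vec k, c⟫ = 0 →
    sinInt k c (accel T u t) + D k * sinInt k c (u t) = 0

/-- `v` is a divergence free trigonometric polynomial which commutes with the signed
permutations of the coordinates. -/
structure IsDatum (v : EuclideanSpace ℝ (Fin 3) → EuclideanSpace ℝ (Fin 3)) : Prop where
  trig : ∃ (F : Finset (Fin 3 → ℤ)) (b c : (Fin 3 → ℤ) → EuclideanSpace ℝ (Fin 3)), ∀ x,
    v x = ∑ k ∈ F, (Real.cos (phase k x) • b k + Real.sin (phase k x) • c k)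
  symm : ∀ (g : Sgn) (x : EuclideanSpace ℝ (Fin 3)), v (actR g x) = actR g (v x)
  div_free : ∀ x, divg v x = 0

/-- `D` is nonnegative and invariant under the signed permutations of the coordinates, at least
`ν |k| ^ (3 / 2)` for `|k| ≥ K` outside the lines `Lam`, and at most `μ |k| ^ (1 / 2)` on the
chain `X`. (On `Lam`, outside `X`, it is arbitrary.) -/
structure IsAdmissible (K ν μ : ℝ) (D : (Fin 3 → ℤ) → ℝ) : Prop where
  nonneg : ∀ k, 0 ≤ D k
  symm : ∀ (g : Sgn) (k : Fin 3 → ℤ), D (act g k) = D k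
  lower : ∀ k, k ∉ Lam → K ≤ ‖vec k‖ → ν * ‖vec k‖ ^ (3 / 2 : ℝ) ≤ D k
  upper : ∀ k ∈ X, D k ≤ μ * ‖vec k‖ ^ (1 / 2 : ℝ)

theorem solution_iff (D : (Fin 3 → ℤ) → ℝ) (T : ℝ)
    (u : ℝ → EuclideanSpace ℝ (Fin 3) → EuclideanSpace ℝ (Fin 3)) :
    IsDampedSolution D T u ↔ Damp.IsDampedSolution D T u :=
  ⟨fun h => ⟨h.1, h.2, h.3, h.4, h.5⟩, fun h => ⟨h.1, h.2, h.3, h.4, h.5⟩⟩

theorem adm_of_poly (h : Damp.ClaimPoly) (hXL : X ⊆ Lam) :
    ∃ (m : ℕ) (P : MvPolynomial (Fin 3) ℝ), P.IsHomogeneous m ∧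
      (∀ k : Fin 3 → ℤ, MvPolynomial.eval (fun i => (k i : ℝ)) P = 0 ↔ k ∈ Lam) ∧
      ∀ ν : ℝ, 0 < ν →
        IsAdmissible 0 ν 0 fun k => ν * MvPolynomial.eval (fun i => (k i : ℝ)) P := by
  obtain ⟨m, P, hP1, hP2, hP3, hP4, hP5⟩ := h
  refine ⟨m, P, hP1, ?_, ?_⟩
  · intro k
    refine ⟨fun h0 => ?_, hP4 k⟩
    by_contra hk
    have h1 := hP5 k hk
    rw [h0] at h1
    have h2 : vec k ≠ 0 := by
      intro h3
      apply hk
      have h4 : k = 0 := by
        funext i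
        have h5 := congrArg (fun y : EuclideanSpace ℝ (Fin 3) => y i) h3
        fin_cases i <;> simpa [vec] using h5
      exact ⟨0, 1, 0, by rw [h4, zero_smul]⟩
    have h6 : 0 < ‖vec k‖ ^ (3 / 2 : ℝ) := Real.rpow_pos_of_pos (norm_pos_iff.mpr h2) _
    linarith
  · intro ν hν
    refine ⟨fun k => mul_nonneg hν.le (hP2 _), ?_, ?_, ?_⟩
    · intro g k
      have h1 := hP3 g (fun i => (k i : ℝ))
      have h2 : (fun i => ((act g k i : ℤ) : ℝ)) =
          fun i => ((g.2 i : ℤ) : ℝ) * (k (g.1 i) : ℝ) := by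
        funext i
        simp [act]
      simp only [h2, h1]
    · intro k hk _
      exact mul_le_mul_of_nonneg_left (hP5 k hk) hν.le
    · intro k hk
      simp only [hP4 k (hXL hk), mul_zero, zero_mul, le_refl]

/-- **Finite time blow-up for the Euler nonlinearity with degenerate dissipation.** -/
theorem result :
    (∃ (m : ℕ) (P : MvPolynomial (Fin 3) ℝ), P.IsHomogeneous m ∧
      (∀ k : Fin 3 → ℤ, MvPolynomial.eval (fun i => (k i : ℝ)) P = 0 ↔ k ∈ Lam) ∧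
      ∀ ν : ℝ, 0 < ν →
        IsAdmissible 0 ν 0 fun k => ν * MvPolynomial.eval (fun i => (k i : ℝ)) P) ∧
    ∀ (K : ℝ) (v : EuclideanSpace ℝ (Fin 3) → EuclideanSpace ℝ (Fin 3)), IsDatum v →
      (∃ k ∈ X, 2200 * K ≤ ‖vec k‖ ∧ ∫ x in cube, Real.sin (phase k x) • v x ≠ 0) →
      ∃ c : ℝ, 0 < c ∧ ∀ (ν μ A : ℝ) (D : (Fin 3 → ℤ) → ℝ), 0 < ν → 0 < A → μ ≤ c * A →
        A ≤ c * ν → IsAdmissible K ν μ D →
        (∀ (T : ℝ) (u u' : ℝ → EuclideanSpace ℝ (Fin 3) → EuclideanSpace ℝ (Fin 3)),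
          IsDampedSolution D T u → IsDampedSolution D T u' → (∀ x, u 0 x = A • v x) →
          (∀ x, u' 0 x = A • v x) → ∀ t ∈ Ico 0 T, u t = u' t) ∧
        ∃ Ts : ℝ, 0 < Ts ∧ c * A * Ts ≤ 1 ∧ ∀ T, 0 < T →
          ((∃ u, IsDampedSolution D T u ∧ ∀ x, u 0 x = A • v x) ↔ T ≤ Ts) := by
  have hSize := Damp.claimSize
  have hP := Damp.claimParseval
  have hB := Damp.claimBasic hP
  have hCI := Damp.claimCubeInv
  have hC := Damp.claimConv hP hCI
  have hU := Damp.claimUnique hP hB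
  refine ⟨adm_of_poly Damp.claimPoly (hSize 0).2.2.2.2.2.2.2, ?_⟩
  intro K v hv hX
  obtain ⟨c, hc, h⟩ := Damp.main_of hB Damp.claimDatum
    (Damp.claimEnergy hP hB Damp.claimIntCont Damp.claimIntDeriv) hU Damp.claimSaSym
    (Damp.claimSymm hU hCI) (Damp.claimOde hC Damp.claimIntCont Damp.claimIntDeriv)
    Damp.claimChain Damp.claimAmp hSize
    (Damp.claimRem Damp.claimClosed Damp.claimFar hSize)
    (Damp.claimBlow Damp.claimQuad Damp.claimRic hSize)
    Damp.claimCoeff (Damp.claimBuild hC hCI) (Damp.claimMax hU) K v ⟨hv.1, hv.2, hv.3⟩ hX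
  refine ⟨c, hc, fun ν μ A D hν hA hμ hAν hD => ?_⟩
  simp only [solution_iff]
  exact h ν μ A D hν hA hμ hAν hD.nonneg hD.symm hD.lower hD.upper

end Pool.Agent.Results.MP_b0497c_an.DegenerateDissipation
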