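import Mathlib
import Pool.Agent.Work.MP_b0497c_an.Unf.Main
import Pool.Agent.Work.MP_b0497c_an.Unf.Hm

set_option autoImplicit false

/-!
Finite time blow-up for the three dimensional incompressible Euler equations on the torus from a
smooth datum, without force.
-/

namespace Pool.Agent.Results.MP_b0497c_an.FiniteTimeBlowup

open Set
open scoped ContDiff ENNReal

/-- Three dimensional Euclidean space. -/
abbrev E3 : Type := EuclideanSpace ℝ (Fin 3)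

/-- `g` has period `2 * pi` in each of the three coordinates, i.e. is a function on the torus. -/
def Periodic3 {F : Type} (g : E3 → F) : Prop :=
  ∀ (i : Fin 3) (x : E3), g (x + (2 * Real.pi) • EuclideanSpace.single i (1 : ℝ)) = g x

/-- The divergence of `v` at `x`. -/
noncomputable def divg (v : E3 → E3) (x : E3) : ℝ := LinearMap.trace ℝ E3 (fderiv ℝ v x)

/-- A classical solution of the incompressible Euler equations on the torus, on the time interval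
`[0, T)`: `u` and `p` are continuously differentiable in `(t, x)`, periodic in `x`, and
`∂ₜ u + (u · ∇) u = - ∇ p`, `div u = 0` hold pointwise (one-sided time derivative at `t = 0`). -/
structure IsClassicalSolution (T : ℝ) (u : ℝ → E3 → E3) (p : ℝ → E3 → ℝ) : Prop where
  periodic_u : ∀ t ∈ Ico 0 T, Periodic3 (u t)
  periodic_p : ∀ t ∈ Ico 0 T, Periodic3 (p t)
  contDiff_u : ContDiffOn ℝ 1 (fun z : ℝ × E3 => u z.1 z.2) (Ico 0 T ×ˢ univ)
  contDiff_p : ContDiffOn ℝ 1 (fun z : ℝ × E3 => p z.1 z.2) (Ico 0 T ×ˢ univ)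
  momentum : ∀ t ∈ Ico 0 T, ∀ x, derivWithin (fun s => u s x) (Ico 0 T) t
    + fderiv ℝ (u t) x (u t x) = - gradient (p t) x
  div_free : ∀ t ∈ Ico 0 T, ∀ x, divg (u t) x = 0

/-- The `j`-th component of the Fourier coefficient of `v` at the frequency `k`. -/
noncomputable def coeff (v : E3 → E3) (k : Fin 3 → ℤ) (j : Fin 3) : ℂ :=
  (((2 * Real.pi) ^ 3 : ℝ) : ℂ)⁻¹ * ∫ x in {x : E3 | ∀ i, x i ∈ Icc 0 (2 * Real.pi)},
    Complex.exp (-(Complex.I * ((∑ i, (k i : ℝ) * x i : ℝ) : ℂ))) * (v x j : ℂ)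

/-- The square of the norm of `v` in the Sobolev space `H^m` of the torus, in `[0, ∞]`. -/
noncomputable def hnorm (m : ℕ) (v : E3 → E3) : ℝ≥0∞ :=
  ∑' k : Fin 3 → ℤ, ENNReal.ofReal ((1 + ∑ i, (k i : ℝ) ^ 2) ^ m) * ∑ j, ‖coeff v k j‖ₑ ^ 2

/-- The space `ℍ^m`, `m ≥ 3`, of divergence free fields (they are `C¹` by the Sobolev
embedding). -/
def MemH (m : ℕ) (v : E3 → E3) : Prop :=
  ContDiff ℝ 1 v ∧ Periodic3 v ∧ (∀ x, divg v x = 0) ∧ hnorm m v < ⊤

/-- The statement of Q1. -/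
def GlobalRegularity : Prop := ∀ m : ℕ, 3 ≤ m → ∀ u₀ : E3 → E3, MemH m u₀ →
  ∃ (u : ℝ → E3 → E3) (p : ℝ → E3 → ℝ), (∀ T > 0, IsClassicalSolution T u p) ∧
    (∀ x, u 0 x = u₀ x) ∧ ∀ T > 0, ∃ B : ℝ, ∀ t ∈ Icc 0 T, hnorm m (u t) ≤ ENNReal.ofReal B

/-- **Finite time blow-up.** There are `T > 0` and a `C^∞`, `2π`-periodic, divergence free vector
field `u₀` (it lies in every `ℍ^m`) such that for no `T' > T` there is a classical solution of the
Euler equations on `[0, T')` with the initial datum `u₀`. In particular Q1 has a negative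
answer, for every `m`. -/
theorem result : (∃ (T : ℝ) (u₀ : E3 → E3), 0 < T ∧ ContDiff ℝ ∞ u₀ ∧ Periodic3 u₀ ∧
      (∀ x, divg u₀ x = 0) ∧ (∀ m : ℕ, MemH m u₀) ∧
      ∀ T' > T, ¬ ∃ (u : ℝ → E3 → E3) (p : ℝ → E3 → ℝ),
        IsClassicalSolution T' u p ∧ ∀ x, u 0 x = u₀ x) ∧
    ¬ GlobalRegularity := by
  have key : ∃ (T : ℝ) (u₀ : E3 → E3), 0 < T ∧ ContDiff ℝ ∞ u₀ ∧ Periodic3 u₀ ∧
      (∀ x, divg u₀ x = 0) ∧ (∀ m : ℕ, MemH m u₀) ∧
      ∀ T' > T, ¬ ∃ (u : ℝ → E3 → E3) (p : ℝ → E3 → ℝ),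
        IsClassicalSolution T' u p ∧ ∀ x, u 0 x = u₀ x := by
    obtain ⟨T, u₀, hT, hsm, hper, hdiv, hno⟩ := Work.MP_b0497c_an.Unf.A.blowup
    refine ⟨T, u₀, hT, hsm, hper, hdiv, fun m => ⟨hsm.of_le (by exact_mod_cast le_top), hper, hdiv,
      (Work.MP_b0497c_an.Unf.Hm.hnorm_ne_top hsm hper m).lt_top⟩, ?_⟩
    rintro T' hT' ⟨u, p, hu, h0⟩
    exact hno T' hT' ⟨u, p, ⟨hu.1, hu.2, hu.3, hu.4, hu.5, hu.6⟩, h0⟩
  refine ⟨key, fun hG => ?_⟩
  obtain ⟨T, u₀, hT, -, -, -, hH, hno⟩ := key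
  obtain ⟨u, p, hu, h0, -⟩ := hG 3 le_rfl u₀ (hH 3)
  exact hno (T + 1) (by linarith) ⟨u, p, hu (T + 1) (by linarith), h0⟩

end Pool.Agent.Results.MP_b0497c_an.FiniteTimeBlowup
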