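import Mathlib
import Pool.Agent.Work.MP_b0497c_an.Forced.Asm.Statement
import Pool.Agent.Work.MP_b0497c_an.Forced.Final

set_option autoImplicit false

/-!
Finite time blow-up for the three dimensional incompressible Euler equations on the torus with a
smooth force, arbitrarily small in every `C^m`, starting from rest.
-/

namespace Pool.Agent.Results.MP_b0497c_an.ForcedBlowup

open Set Filter Topology
open scoped ContDiff

/-- Three dimensional Euclidean space. -/
abbrev E3 : Type := EuclideanSpace ℝ (Fin 3)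

/-- `g` has period `2 * pi` in each of the three coordinates, i.e. is a function on the torus. -/
def Periodic3 {F : Type} (g : E3 → F) : Prop :=
  ∀ (i : Fin 3) (x : E3), g (x + (2 * Real.pi) • EuclideanSpace.single i (1 : ℝ)) = g x

/-- The divergence of `v` at `x`. -/
noncomputable def divg (v : E3 → E3) (x : E3) : ℝ := LinearMap.trace ℝ E3 (fderiv ℝ v x)

/-- `∂ⱼ vᵢ` at `x`. -/
noncomputable def pder (v : E3 → E3) (x : E3) (i j : Fin 3) : ℝ :=
  fderiv ℝ v x (EuclideanSpace.single j (1 : ℝ)) i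

/-- The vorticity `curl v` at `x`. -/
noncomputable def curl (v : E3 → E3) (x : E3) : E3 :=
  !₂[pder v x 2 1 - pder v x 1 2, pder v x 0 2 - pder v x 2 0, pder v x 1 0 - pder v x 0 1]

/-- A classical solution of the incompressible Euler equations with force `f` on the torus, on the
time interval `[0, T)`: `u` and `p` are continuously differentiable in `(t, x)`, periodic in `x`,
and `∂ₜ u + (u · ∇) u = - ∇ p + f`, `div u = 0` hold pointwise (one-sided time derivative at
`t = 0`). -/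
structure IsClassicalSolution (T : ℝ) (f u : ℝ → E3 → E3) (p : ℝ → E3 → ℝ) : Prop where
  periodic_u : ∀ t ∈ Ico 0 T, Periodic3 (u t)
  periodic_p : ∀ t ∈ Ico 0 T, Periodic3 (p t)
  contDiff_u : ContDiffOn ℝ 1 (fun z : ℝ × E3 => u z.1 z.2) (Ico 0 T ×ˢ univ)
  contDiff_p : ContDiffOn ℝ 1 (fun z : ℝ × E3 => p z.1 z.2) (Ico 0 T ×ˢ univ)
  momentum : ∀ t ∈ Ico 0 T, ∀ x, derivWithin (fun s => u s x) (Ico 0 T) t
    + fderiv ℝ (u t) x (u t x) = - gradient (p t) x + f t x
  div_free : ∀ t ∈ Ico 0 T, ∀ x, divg (u t) x = 0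

/-- **Blow-up from rest with a smooth force.** For every `m` and every `ε > 0` there are a time
`T > 0`, a force `f` which is `C^∞` on `ℝ × ℝ³`, periodic in `x`, zero outside a compact time
interval, with all derivatives (in `(t, x)`) of order at most `m` bounded by `ε`, and a classical
solution `(u, p)` on `[0, T)` with `u = 0` at time `0`, which is `C^∞` for `t < T`, such that the
vorticity at the origin tends to infinity as `t` increases to `T`; moreover every classical
solution `(v, q)` on `[0, T')` with the same force and `v = 0` at time `0` has `T' ≤ T` and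
coincides with `u`. -/
theorem result (m : ℕ) (ε : ℝ) (hε : 0 < ε) :
    ∃ (T : ℝ) (f u : ℝ → E3 → E3) (p : ℝ → E3 → ℝ), 0 < T ∧
      ContDiff ℝ ∞ (fun z : ℝ × E3 => f z.1 z.2) ∧
      (∀ t, Periodic3 (f t)) ∧
      (∃ T₁ : ℝ, ∀ t, t ∉ Icc 0 T₁ → ∀ x, f t x = 0) ∧
      (∀ n ≤ m, ∀ z : ℝ × E3, ‖iteratedFDeriv ℝ n (fun z : ℝ × E3 => f z.1 z.2) z‖ ≤ ε) ∧
      IsClassicalSolution T f u p ∧
      (∀ x, u 0 x = 0) ∧
      ContDiffOn ℝ ∞ (fun z : ℝ × E3 => u z.1 z.2) (Iio T ×ˢ univ) ∧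
      ContDiffOn ℝ ∞ (fun z : ℝ × E3 => p z.1 z.2) (Iio T ×ˢ univ) ∧
      Tendsto (fun t => ‖curl (u t) 0‖) (𝓝[<] T) atTop ∧
      ∀ (T' : ℝ) (v : ℝ → E3 → E3) (q : ℝ → E3 → ℝ), IsClassicalSolution T' f v q →
        (∀ x, v 0 x = 0) → T' ≤ T ∧ ∀ t ∈ Ico 0 T', ∀ x, v t x = u t x := by
  obtain ⟨T, f, u, p, hT, hS, hsm, hF, hU⟩ :
      Pool.Agent.Work.MP_b0497c_an.Forced.MainConclusion m ε :=
    Pool.Agent.Work.MP_b0497c_an.Forced.forced_main m ε hε
  refine ⟨T, f, u, p, hT, hS.f_smooth, hS.f_per, hS.f_time, hsm, ⟨hF.1, hF.2, hF.3, hF.4, hF.5,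
    hF.6⟩, fun x => hS.u_zero 0 le_rfl x, hS.u_smooth, hS.p_smooth, hS.blow, ?_⟩
  intro T' v q hv hv0
  exact hU T' v q ⟨hv.1, hv.2, hv.3, hv.4, hv.5, hv.6⟩ hv0

end Pool.Agent.Results.MP_b0497c_an.ForcedBlowup
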