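import Mathlib
import Pool.Agent.Work.MP_b0497c_an.Forced.S.All

set_option autoImplicit false

/-!
Finite time blow-up for the three dimensional incompressible Euler equations on the torus
perturbed by an arbitrarily small autonomous linear term `ε ∫ K(x, y) u(y) dy` with a fixed smooth
skew kernel `K`.
-/

namespace Pool.Agent.Results.MP_b0497c_an.SmoothSkewPerturbation

open Set Filter Topology MeasureTheory
open scoped ContDiff

/-- Three dimensional Euclidean space. -/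
abbrev E3 : Type := EuclideanSpace ℝ (Fin 3)

/-- `g` has period `2 * pi` in each of the three coordinates, i.e. is a function on the torus. -/
def Periodic3 {F : Type} (g : E3 → F) : Prop :=
  ∀ (i : Fin 3) (x : E3), g (x + (2 * Real.pi) • EuclideanSpace.single i (1 : ℝ)) = g x

/-- The cube `[0, 2 * pi]³`, a fundamental domain of the torus. -/
def cube : Set E3 := {x | ∀ i, x i ∈ Icc 0 (2 * Real.pi)}

/-- The divergence of `v` at `x`. -/
noncomputable def divg (v : E3 → E3) (x : E3) : ℝ := LinearMap.trace ℝ E3 (fderiv ℝ v x)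

/-- `∂ⱼ vᵢ` at `x`. -/
noncomputable def pder (v : E3 → E3) (x : E3) (i j : Fin 3) : ℝ :=
  fderiv ℝ v x (EuclideanSpace.single j (1 : ℝ)) i

/-- The vorticity `curl v` at `x`. -/
noncomputable def curl (v : E3 → E3) (x : E3) : E3 :=
  !₂[pder v x 2 1 - pder v x 1 2, pder v x 0 2 - pder v x 2 0, pder v x 1 0 - pder v x 0 1]

/-- `K` is a matrix valued kernel on the torus, jointly `C^∞`, with `K(x, y)ᵀ = - K(y, x)`; the
operator `v ↦ ∫ K(·, y) v(y) dy` is linear, skew-adjoint on `L²` and infinitely smoothing. -/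
structure IsSmoothSkewKernel (K : E3 → E3 → E3 →L[ℝ] E3) : Prop where
  smooth : ContDiff ℝ ∞ (fun z : E3 × E3 => K z.1 z.2)
  periodic_left : ∀ y, Periodic3 (fun x => K x y)
  periodic_right : ∀ x, Periodic3 (fun y => K x y)
  skew : ∀ x y v w : E3, inner ℝ (K x y v) w = - inner ℝ v (K y x w)

/-- A classical solution on `[0, T)` of the perturbed Euler equations
`∂ₜ u + (u · ∇) u = - ∇ p + ε ∫ K(x, y) u(t, y) dy`, `div u = 0` on the torus: `u` and `p` are
continuously differentiable in `(t, x)`, periodic in `x`, and the equations hold pointwise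
(one-sided time derivative at `t = 0`). For `ε = 0` these are the Euler equations. -/
structure IsClassicalSolution (K : E3 → E3 → E3 →L[ℝ] E3) (ε T : ℝ) (u : ℝ → E3 → E3)
    (p : ℝ → E3 → ℝ) : Prop where
  periodic_u : ∀ t ∈ Ico 0 T, Periodic3 (u t)
  periodic_p : ∀ t ∈ Ico 0 T, Periodic3 (p t)
  contDiff_u : ContDiffOn ℝ 1 (fun z : ℝ × E3 => u z.1 z.2) (Ico 0 T ×ˢ univ)
  contDiff_p : ContDiffOn ℝ 1 (fun z : ℝ × E3 => p z.1 z.2) (Ico 0 T ×ˢ univ)
  momentum : ∀ t ∈ Ico 0 T, ∀ x, derivWithin (fun s => u s x) (Ico 0 T) t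
    + fderiv ℝ (u t) x (u t x) = - gradient (p t) x + ε • ∫ y in cube, K x y (u t y)
  div_free : ∀ t ∈ Ico 0 T, ∀ x, divg (u t) x = 0

/-- **Blow-up for an arbitrarily small smoothing skew perturbation of Euler.** There is one smooth
skew kernel `K` on the torus such that for every `ε ≠ 0` and every `T > 0` there is a smooth datum
`u₀` for which the Euler equations have a global `C^∞` solution, while the Euler equations
perturbed by `ε ∫ K(x, y) u(y) dy` have a classical solution `(u, p)` on `[0, T)`, which is `C^∞`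
and has constant energy, whose vorticity at the origin tends to infinity as `t` increases to `T`;
and every classical solution `(v, q)` on `[0, T')` of the perturbed equations with the same datum
has `T' ≤ T` and coincides with `u`. -/
theorem result : ∃ K : E3 → E3 → E3 →L[ℝ] E3, IsSmoothSkewKernel K ∧
    ∀ ε T : ℝ, ε ≠ 0 → 0 < T → ∃ u₀ : E3 → E3, ContDiff ℝ ∞ u₀ ∧
    (∃ w : ℝ → E3 → E3, ContDiff ℝ ∞ (fun z : ℝ × E3 => w z.1 z.2) ∧ (∀ x, w 0 x = u₀ x) ∧
      ∀ S, IsClassicalSolution K 0 S w (fun _ _ => 0)) ∧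
    ∃ (u : ℝ → E3 → E3) (p : ℝ → E3 → ℝ),
      IsClassicalSolution K ε T u p ∧ (∀ x, u 0 x = u₀ x) ∧
      ContDiffOn ℝ ∞ (fun z : ℝ × E3 => u z.1 z.2) (Ico 0 T ×ˢ univ) ∧
      ContDiffOn ℝ ∞ (fun z : ℝ × E3 => p z.1 z.2) (Ico 0 T ×ˢ univ) ∧
      (∀ t ∈ Ico 0 T, ∫ x in cube, ‖u t x‖ ^ 2 = ∫ x in cube, ‖u₀ x‖ ^ 2) ∧
      Tendsto (fun t => ‖curl (u t) 0‖) (𝓝[<] T) atTop ∧
      ∀ (T' : ℝ) (v : ℝ → E3 → E3) (q : ℝ → E3 → ℝ), IsClassicalSolution K ε T' v q →
        (∀ x, v 0 x = u₀ x) → T' ≤ T ∧ ∀ t ∈ Ico 0 T', ∀ x, v t x = u t x := by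
  obtain ⟨K, hK, H⟩ : Pool.Agent.Work.MP_b0497c_an.Forced.S.SConclusion3 :=
    Pool.Agent.Work.MP_b0497c_an.Forced.S.sAll3
  refine ⟨K, ⟨hK.smooth, fun y i x => hK.per1 i x y, fun x i y => hK.per2 i x y, hK.skew⟩, ?_⟩
  intro ε T hε hT
  obtain ⟨u₀, hu₀, ⟨w, hw, hw0, hw1⟩, u, p, hu, hp, hs, hu0, hen, hbl, huq⟩ := H ε T hε hT
  refine ⟨u₀, hu₀, ⟨w, hw, hw0, fun S => ?_⟩, u, p, ?_, hu0, hu, hp, ?_, hbl, ?_⟩
  · have h := hw1 S
    exact ⟨h.1, h.2, h.3, h.4, fun t ht x => by rw [h.5 t ht x, zero_smul], h.6⟩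
  · exact ⟨hs.1, hs.2, hs.3, hs.4, fun t ht x => hs.5 t ht x, hs.6⟩
  · intro t ht
    have h := hen t ht
    simp only [hu0] at h
    exact h
  · intro T' v q hv hv0
    exact huq T' v q ⟨hv.1, hv.2, hv.3, hv.4, fun t ht x => hv.5 t ht x, hv.6⟩
      (fun x => by rw [hv0, hu0])

end Pool.Agent.Results.MP_b0497c_an.SmoothSkewPerturbation
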